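import Pool.Agent.H73.FW.Main

/-!
# A generator with seed length `O(log n)` for programs that rarely change their long-term memory

For all constants `c`, `K` and `ε > 0` there is an explicit generator with seed length
`C * log₂ n` such that for every `n ≥ 2` and every ordered read-once branching program of length
`n`, of arbitrary width, whose memory consists of the last `c * ⌈log₂ n⌉` bits read and of an
element of a set `V` (the long-term memory; `V` and the maps `V → V` performed by the steps are
arbitrary), the acceptance probabilities for uniform and for pseudorandom inputs differ by at most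
`3 δ + ε`, where `δ` is the probability that a uniform input changes the long-term memory more than
`K` times after the last constant step. In particular (`expected_changes`) it `ε`-fools all such
programs for which the expected number of these changes is at most `K`.

All definitions used in the statement are in `Pool.Agent.H9.PRG.Defs` and
`Pool.Agent.H73.FW.Defs`.
-/

open Finset
open scoped BigOperators

namespace Pool.Agent.Results.MP_10e1ea_lc.FewWrites

open Pool.Agent.H9.PRG
open Pool.Agent.H73.FW

theorem result (c K : ℕ) (ε : ℝ) (hε : 0 < ε) :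
    ∃ (C : ℕ) (G : ℕ → ℕ → ℕ → Bool), IsExplicit G ∧
      ∀ n ≥ 2, ∀ (P : ROBP n) (V : Type) (D : WinMem n (c * Nat.clog 2 n) V), D.Computes P →
        |probUnif P - probGen P (G n) (C * Nat.log 2 n)| ≤ 3 * D.probMore K + ε := by
  classical
  obtain ⟨k, a, C, hmain⟩ := main (c + 1) K (by omega) ε hε
  refine ⟨C, genW (c + 1) k a, genW_explicit (c + 1) k a, ?_⟩
  intro n hn P V D hP
  have hL : c * Nat.clog 2 n ≤ Bn (c + 1) n := by
    unfold Bn lg
    have h1 : Nat.clog 2 n ≤ Nat.log 2 n + 1 := by
      rw [Nat.clog_le_iff_le_pow (by norm_num)]
      exact (Nat.lt_pow_succ_log_self (by norm_num) n).le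
    exact Nat.mul_le_mul (by omega) h1
  have h := hmain n hn V (D.widen hL) P (fun x => by rw [D.widen_mem]; exact hP x)
  have h1 : (D.widen hL).probMore K = D.probMore K := by
    unfold WinMem.probMore
    simp only [D.widen_changes]
  rw [h1] at h
  exact h

/-- Programs for which the expected number of changes of the long-term memory after the last
constant step is at most `K`. -/
theorem expected_changes (c : ℕ) (K ε : ℝ) (hK : 0 ≤ K) (hε : 0 < ε) :
    ∃ (C : ℕ) (G : ℕ → ℕ → ℕ → Bool), IsExplicit G ∧
      ∀ n ≥ 2, ∀ (P : ROBP n) (V : Type) (D : WinMem n (c * Nat.clog 2 n) V), D.Computes P →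
        D.expChanges ≤ K →
        |probUnif P - probGen P (G n) (C * Nat.log 2 n)| ≤ ε := by
  classical
  obtain ⟨m, hm⟩ := exists_nat_gt (6 * K / ε)
  obtain ⟨C, G, hG, h⟩ := result c m (ε / 2) (by positivity)
  refine ⟨C, G, hG, fun n hn P V D hP hD => (h n hn P V D hP).trans ?_⟩
  have h1 : D.probMore m * m ≤ K := by
    refine le_trans ?_ hD
    unfold WinMem.probMore WinMem.expChanges
    rw [div_mul_eq_mul_div]
    apply div_le_div_of_nonneg_right _ (by positivity)
    rw [← nsmul_eq_mul]
    calc _ ≤ ∑ x ∈ univ.filter (fun x : Fin n → Bool => m < D.changes (seqOf x) n),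
          (D.changes (seqOf x) n : ℝ) := by
          apply Finset.card_nsmul_le_sum
          intro x hx
          have := (Finset.mem_filter.mp hx).2
          exact_mod_cast this.le
      _ ≤ _ := Finset.sum_le_sum_of_subset_of_nonneg (Finset.filter_subset _ _)
          (fun _ _ _ => Nat.cast_nonneg _)
  have h2 : 0 ≤ D.probMore m := by unfold WinMem.probMore; positivity
  have h3 : 3 * D.probMore m ≤ ε / 2 := by
    rw [div_lt_iff₀ hε] at hm
    have h4 : D.probMore m * (6 * K) ≤ D.probMore m * (m * ε) := mul_le_mul_of_nonneg_left hm.le h2
    have h5 : D.probMore m * m * ε ≤ K * ε := mul_le_mul_of_nonneg_right h1 hε.le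
    rcases hK.eq_or_lt with h0 | h0
    · -- `K = 0`
      rw [← h0] at h1 hm
      have hm0 : (0 : ℝ) < m := by
        rw [mul_zero] at hm
        by_contra h6
        push Not at h6
        have : (m : ℝ) * ε ≤ 0 := mul_nonpos_of_nonpos_of_nonneg h6 hε.le
        linarith
      have h6 : D.probMore m ≤ 0 := by
        by_contra h7
        push Not at h7
        have := mul_pos h7 hm0
        linarith
      linarith
    · have h6 : D.probMore m * 6 * K ≤ ε * K := by linarith
      have h7 : D.probMore m * 6 ≤ ε := le_of_mul_le_mul_right h6 h0
      linarith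
  linarith

end Pool.Agent.Results.MP_10e1ea_lc.FewWrites
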